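import Pool.Agent.H23.Cut2

set_option autoImplicit false
set_option maxSynthPendingDepth 3

namespace Pool.Agent.Results.MP_f46ce3_an.Beurling

open Finset Pool.Agent.H23.Cut

/-- `g` belongs to `Lip_0(X)`. -/
def InLip0 {X : Type*} [MetricSpace X] (o : X) (g : X → ℝ) : Prop :=
  g o = 0 ∧ ∃ K, LipschitzWith K g

/-- the difference quotient `D_{u,v} g`. -/
noncomputable def D {X : Type*} [MetricSpace X] (u v : X) (g : X → ℝ) : ℝ :=
  (g u - g v) / dist u v

/-- `T : Lip_0(X) → ℓ_∞(I)` is onto. -/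
def Interpolating {X I : Type*} [MetricSpace X] (o : X) (x y : I → X) : Prop :=
  ∀ α : I → ℝ, (∃ C, ∀ i, |α i| ≤ C) → ∃ g, InLip0 o g ∧ ∀ i, D (x i) (y i) g = α i

/-- the interpolation constant. -/
noncomputable def interpConst {X I : Type*} [MetricSpace X] (o : X) (x y : I → X) : ℝ :=
  sInf {K : ℝ | 1 ≤ K ∧ ∀ α : I → ℝ, (∀ i, |α i| ≤ 1) →
    ∃ g : X → ℝ, g o = 0 ∧ (∀ u v, |g u - g v| ≤ K * dist u v) ∧ ∀ i, D (x i) (y i) g = α i}

section
variable {X I : Type*} [MetricSpace X]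

def coc (X : Type*) [MetricSpace X] : Submodule ℝ (lp (fun _ : X × X => ℝ) ⊤) where
  carrier := {φ | ∀ u v w, φ (u, v) * dist u v + φ (v, w) * dist v w = φ (u, w) * dist u w}
  add_mem' := by
    intro a b ha hb u v w
    have h1 := ha u v w
    have h2 := hb u v w
    simp only [lp.coeFn_add, Pi.add_apply]
    linarith
  zero_mem' := by intro u v w; simp
  smul_mem' := by
    intro c a ha u v w
    have h1 := ha u v w
    simp only [lp.coeFn_smul, Pi.smul_apply, smul_eq_mul]
    linear_combination c * h1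

lemma ev_cont (q : X × X) : Continuous (fun φ : lp (fun _ : X × X => ℝ) ⊤ => φ q) :=
  (lp.lipschitzWith_one_eval ⊤ q).continuous

lemma coc_closed : IsClosed (coc X : Set (lp (fun _ : X × X => ℝ) ⊤)) := by
  have : (coc X : Set (lp (fun _ : X × X => ℝ) ⊤)) = ⋂ u, ⋂ v, ⋂ w,
      {φ | φ (u, v) * dist u v + φ (v, w) * dist v w = φ (u, w) * dist u w} := by
    ext φ; simp only [Set.mem_iInter]; exact Iff.rfl
  rw [this]
  refine isClosed_iInter fun u => isClosed_iInter fun v => isClosed_iInter fun w => ?_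
  exact isClosed_eq (((ev_cont _).mul continuous_const).add ((ev_cont _).mul continuous_const))
    ((ev_cont _).mul continuous_const)

noncomputable def TT (x y : I → X) : coc X →L[ℝ] lp (fun _ : I => ℝ) ⊤ :=
  LinearMap.mkContinuous
    { toFun := fun φ => ⟨fun i => φ.1 (x i, y i), memℓp_infty ⟨‖φ.1‖, by
        rintro _ ⟨i, rfl⟩
        exact lp.norm_apply_le_norm (by simp) φ.1 _⟩⟩
      map_add' := fun a b => by ext i; rfl
      map_smul' := fun c a => by ext i; rfl } 1
    (fun φ => by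
      rw [one_mul]
      exact lp.norm_le_of_forall_le (norm_nonneg _)
        (fun i => lp.norm_apply_le_norm (by simp) φ.1 _))

lemma exists_const (o : X) (x y : I → X) (hxy : ∀ i, x i ≠ y i) (h : Interpolating o x y) :
    ∃ K : ℝ, 1 ≤ K ∧ ∀ α : I → ℝ, (∀ i, |α i| ≤ 1) →
      ∃ g : X → ℝ, g o = 0 ∧ (∀ u v, |g u - g v| ≤ K * dist u v) ∧ ∀ i, D (x i) (y i) g = α i := by
  have : CompleteSpace (coc X) := coc_closed.completeSpace_coe
  have hs : Function.Surjective (TT x y) := by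
    intro α
    obtain ⟨g, ⟨-, K, hK⟩, hg⟩ := h α ⟨‖α‖, fun i => lp.norm_apply_le_norm (by simp) α i⟩
    have hD : ∀ u v, D u v g * dist u v = g u - g v := by
      intro u v
      by_cases huv : u = v
      · simp [huv]
      · exact div_mul_cancel₀ _ (dist_pos.2 huv).ne'
    refine ⟨⟨⟨fun q => D q.1 q.2 g, memℓp_infty ⟨K, ?_⟩⟩, fun u v w => ?_⟩, ?_⟩
    · rintro _ ⟨q, rfl⟩
      have := hK.dist_le_mul q.1 q.2
      rw [Real.dist_eq] at this
      simp only [D, norm_div, Real.norm_eq_abs, abs_dist]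
      exact div_le_of_le_mul₀ dist_nonneg K.2 this
    · show D u v g * dist u v + D v w g * dist v w = D u w g * dist u w
      rw [hD, hD, hD]; ring
    · ext i; exact hg i
  obtain ⟨C, hC, hT⟩ := (TT x y).exists_preimage_norm_le hs
  refine ⟨max 1 C, le_max_left _ _, fun α hα => ?_⟩
  let a : lp (fun _ : I => ℝ) ⊤ := ⟨α, memℓp_infty ⟨1, by rintro _ ⟨i, rfl⟩; exact hα i⟩⟩
  have ha : ‖a‖ ≤ 1 := lp.norm_le_of_forall_le zero_le_one hα
  obtain ⟨φ, hφ, hn⟩ := hT a
  have hdiff : ∀ u v, φ.1 (u, o) * dist u o - φ.1 (v, o) * dist v o = φ.1 (u, v) * dist u v := by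
    intro u v
    have := φ.2 u v o
    linarith
  refine ⟨fun u => φ.1 (u, o) * dist u o, by simp, fun u v => ?_, fun i => ?_⟩
  · simp only [hdiff, abs_mul, abs_dist]
    refine mul_le_mul_of_nonneg_right ?_ dist_nonneg
    have h1 : ‖φ.1 (u, v)‖ ≤ ‖φ.1‖ := lp.norm_apply_le_norm (by simp) φ.1 _
    have h2 : ‖φ.1‖ ≤ C * ‖a‖ := hn
    have h3 : C * ‖a‖ ≤ C := by nlinarith
    exact (h1.trans (h2.trans h3)).trans (le_max_right _ _)
  · simp only [D, hdiff]
    rw [mul_div_cancel_right₀ _ (dist_pos.2 (hxy i)).ne']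
    exact congrFun (congrArg (fun z : lp (fun _ : I => ℝ) ⊤ => (z : I → ℝ)) hφ) i

lemma finite_stage (x y : I → X) (hxy : ∀ i, x i ≠ y i) (M : ℝ) (hM0 : 0 ≤ M)
    (hM : ∀ K, M < K → ∀ α : I → ℝ, (∀ i, |α i| ≤ 1) →
      ∃ g : X → ℝ, (∀ u v, |g u - g v| ≤ K * dist u v) ∧ ∀ i, D (x i) (y i) g = α i)
    [DecidableEq I] (I0 : Finset I) (J0 : Finset (X × X)) :
    ∃ f : I → X → ℝ, (∀ i v, |f i v| ≤ dist (x i) (y i)) ∧
      (∀ q ∈ J0, ∑ i ∈ I0, |f i q.1 - f i q.2| ≤ M * dist q.1 q.2) ∧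
      ∀ i ∈ I0, ∀ j ∈ I0, f i (x j) - f i (y j) = if i = j then dist (x j) (y j) else 0 := by
  classical
  let s : ↥I0 ⊕ ↥J0 → X := Sum.elim (fun i => x i) (fun q => q.1.1)
  let t : ↥I0 ⊕ ↥J0 → X := Sum.elim (fun i => y i) (fun q => q.1.2)
  let w0 : ↥I0 ⊕ ↥J0 → ℝ := Sum.elim (fun i => -dist (x i) (y i)) (fun q => M * dist q.1.1 q.1.2)
  have hw : Cons s t w0 := by
    intro Z hZ
    obtain ⟨a⟩ : Nonempty X ∨ IsEmpty X := (isEmpty_or_nonempty X).symm
    · obtain ⟨a⟩ := a
      obtain ⟨σ, hσ, hg⟩ := L2 s t _ Z a a le_rfl (by rw [hZ, add_self])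
      set A := ∑ i : ↥I0, if Z (Sum.inl i) = 1 then dist (x i) (y i) else 0 with hA
      set B := ∑ q : ↥J0, if Z (Sum.inr q) = 1 then dist q.1.1 q.1.2 else 0 with hB
      have hB0 : 0 ≤ B := sum_nonneg (fun q _ => by split_ifs <;> simp)
      have hAB : ∀ K, M < K → A ≤ K * B := by
        intro K hK
        obtain ⟨g, hg1, hg2⟩ := hM K hK (fun i => if h : i ∈ I0 then σ (Sum.inl ⟨i, h⟩) else 0) (by
          intro i
          split_ifs with h
          · rcases hσ (Sum.inl ⟨i, h⟩) with h1 | h1 <;> simp [h1]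
          · simp)
        have h0 := hg g
        rw [sub_self, W, Fintype.sum_sum_type] at h0
        have e1 : (∑ i : ↥I0, if Z (Sum.inl i) = 1 then
            σ (Sum.inl i) * (g (s (Sum.inl i)) - g (t (Sum.inl i))) else 0) = A := by
          refine sum_congr rfl (fun i _ => ?_)
          split_ifs
          · have h1 := hg2 i
            simp only [i.2, dite_true, D] at h1
            rw [div_eq_iff (dist_pos.2 (hxy i)).ne'] at h1
            show σ (Sum.inl i) * (g (x i) - g (y i)) = _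
            rw [h1]
            rcases hσ (Sum.inl i) with h2 | h2 <;> simp [h2]
          · rfl
        have e2 : -(K * B) ≤ ∑ q : ↥J0, if Z (Sum.inr q) = 1 then
            σ (Sum.inr q) * (g (s (Sum.inr q)) - g (t (Sum.inr q))) else 0 := by
          rw [hB, mul_sum, ← sum_neg_distrib]
          refine sum_le_sum (fun q _ => ?_)
          split_ifs
          · have h1 := abs_le.1 (hg1 q.1.1 q.1.2)
            show _ ≤ σ (Sum.inr q) * (g q.1.1 - g q.1.2)
            rcases hσ (Sum.inr q) with h2 | h2 <;> rw [h2] <;> linarith [h1.1, h1.2]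
          · simp
        linarith
      have hAM : A ≤ M * B := by
        refine le_of_forall_pos_le_add (fun ε hε => ?_)
        have h1 := hAB (M + ε / (B + 1)) (by linarith [div_pos hε (by linarith : 0 < B + 1)])
        have h2 : ε / (B + 1) * B ≤ ε := by
          rw [div_mul_eq_mul_div, div_le_iff₀ (by linarith)]; nlinarith
        nlinarith
      have e3 : W w0 Z = -A + M * B := by
        rw [W, Fintype.sum_sum_type, hA, hB, mul_sum, ← sum_neg_distrib]
        congr 1 <;> refine sum_congr rfl (fun q _ => ?_) <;> split_ifs <;> simp [w0]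
      linarith
    · rename_i hX
      refine sum_nonneg (fun e _ => ?_)
      exact (hX.false (s e)).elim
  obtain ⟨f, h1, h2, h3⟩ := packing s t w0 hw
  refine ⟨fun i => if h : i ∈ I0 then f (Sum.inl ⟨i, h⟩) else 0, fun i v => ?_, fun q hq => ?_,
    fun i hi j hj => ?_⟩
  · by_cases h : i ∈ I0
    · simpa [h, w0] using h3 (Sum.inl ⟨i, h⟩) v
    · simp [h]
  · have h4 := h1 (Sum.inr ⟨q, hq⟩) (mul_nonneg hM0 dist_nonneg)
    rw [Fintype.sum_sum_type] at h4
    have h5 : 0 ≤ ∑ r : ↥J0, |f (Sum.inr r) (s (Sum.inr ⟨q, hq⟩)) - f (Sum.inr r) (t (Sum.inr ⟨q, hq⟩))| :=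
      sum_nonneg (fun _ _ => abs_nonneg _)
    rw [← sum_coe_sort I0]
    refine le_trans (le_of_eq ?_) (le_trans (le_add_of_nonneg_right h5) h4)
    refine sum_congr rfl (fun i _ => ?_)
    simp [i.2, s, t]
  · have h4 := h2 (Sum.inl ⟨j, hj⟩) (by simpa [w0] using hxy j) (Sum.inl ⟨i, hi⟩)
    simpa [hi, s, t, w0] using h4

end

/-- Every Lipschitz interpolating family of pairs has a Beurling set. -/
theorem result {X I : Type*} [MetricSpace X] [DecidableEq I] (o : X) (x y : I → X)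
    (hxy : ∀ i, x i ≠ y i) (h : Interpolating o x y) :
    ∃ f : I → X → ℝ, (∀ i, InLip0 o (f i)) ∧
      (∀ i j, D (x j) (y j) (f i) = if i = j then 1 else 0) ∧
      ∀ u v, u ≠ v → Summable (fun i => |D u v (f i)|) ∧
        ∑' i, |D u v (f i)| ≤ interpConst o x y := by
  classical
  obtain ⟨K0, hK0⟩ := exists_const o x y hxy h
  set M := interpConst o x y with hMdef
  have hM1 : 1 ≤ M := le_csInf ⟨K0, hK0⟩ (fun K hK => hK.1)
  have hM : ∀ K, M < K → ∀ α : I → ℝ, (∀ i, |α i| ≤ 1) →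
      ∃ g : X → ℝ, (∀ u v, |g u - g v| ≤ K * dist u v) ∧ ∀ i, D (x i) (y i) g = α i := by
    intro K hK α hα
    obtain ⟨K', hK', hlt⟩ := exists_lt_of_csInf_lt ⟨K0, hK0⟩ hK
    obtain ⟨g, -, hg1, hg2⟩ := hK'.2 α hα
    exact ⟨g, fun u v => (hg1 u v).trans (mul_le_mul_of_nonneg_right hlt.le dist_nonneg), hg2⟩
  have hK : IsCompact (Set.pi Set.univ fun i : I => Set.pi Set.univ fun _ : X =>
      Set.Icc (-dist (x i) (y i)) (dist (x i) (y i))) :=
    isCompact_univ_pi fun i => isCompact_univ_pi fun _ => isCompact_Icc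
  obtain ⟨f, -, hf⟩ := hK.inter_iInter_nonempty
    (fun r : Finset I × X × X => {f : I → X → ℝ |
      ∑ i ∈ r.1, |f i r.2.1 - f i r.2.2| ≤ M * dist r.2.1 r.2.2 ∧
      ∀ i ∈ r.1, ∀ j ∈ r.1, f i (x j) - f i (y j) = if i = j then dist (x j) (y j) else 0})
    (fun r => by
      simp only [Set.ofPred_and, Set.ofPred_forall]
      exact (isClosed_le (by fun_prop) (by fun_prop)).inter
        (isClosed_iInter fun i => isClosed_iInter fun _ => isClosed_iInter fun j =>
          isClosed_iInter fun _ => isClosed_eq (by fun_prop) (by fun_prop)))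
    (fun U => by
      obtain ⟨f, h1, h2, h3⟩ := finite_stage x y hxy M (by linarith) hM
        (U.biUnion (fun r => r.1)) (U.image (fun r => r.2))
      refine ⟨f, fun i _ v _ => abs_le.1 (h1 i v), ?_⟩
      simp only [Set.mem_iInter]
      intro r hr
      have hsub : r.1 ⊆ U.biUnion (fun r => r.1) := subset_biUnion_of_mem (fun r => r.1) hr
      refine ⟨le_trans ?_ (h2 r.2 (mem_image_of_mem _ hr)),
        fun i hi j hj => h3 i (hsub hi) j (hsub hj)⟩
      exact sum_le_sum_of_subset_of_nonneg hsub (fun _ _ _ => abs_nonneg _))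
  simp only [Set.mem_iInter] at hf
  have hsum : ∀ (A : Finset I) (u v : X), ∑ i ∈ A, |f i u - f i v| ≤ M * dist u v :=
    fun A u v => (hf (A, u, v)).1
  refine ⟨fun i u => f i u - f i o, fun i => ⟨by simp, ⟨M, by linarith⟩, ?_⟩, fun i j => ?_,
    fun u v huv => ?_⟩
  · refine LipschitzWith.of_dist_le_mul (fun u v => ?_)
    have := hsum {i} u v
    rw [sum_singleton] at this
    rw [Real.dist_eq, sub_sub_sub_cancel_right]
    exact this
  · have := (hf ({i, j}, o, o)).2 i (by simp) j (by simp)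
    simp only [D, sub_sub_sub_cancel_right, this]
    split_ifs
    · exact div_self (dist_pos.2 (hxy j)).ne'
    · simp
  · have hb : ∀ A : Finset I, ∑ i ∈ A, |D u v (fun u => f i u - f i o)| ≤ M := by
      intro A
      simp only [D, sub_sub_sub_cancel_right, abs_div, abs_dist]
      rw [← sum_div, div_le_iff₀ (dist_pos.2 huv)]
      exact hsum A u v
    exact ⟨summable_of_sum_le (fun _ => abs_nonneg _) hb,
      Real.tsum_le_of_sum_le (fun _ => abs_nonneg _) hb⟩

end Pool.Agent.Results.MP_f46ce3_an.Beurling
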